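import Pool.Agent.R479.NF.Wa

/-!
# MP_83e36b_nt: weak approximation for almost all of the varieties
# `N_{Kᵢ/ℚ}(zᵢ) = cᵢ (f(t) + k)` for cyclic fields `Kᵢ`

Let `f` be any integral polynomial of degree at least two in any number of variables, let the `cᵢ` be
nonzero integers, and let the `Kᵢ` be number fields which are cyclic over `ℚ`, of any degrees (subfields of
a cyclotomic field), with class numbers prime to their degrees, such that `-1` is a norm (for example, if
the degree is odd) or all norms are nonnegative. The varieties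
`V_k : N_{Kᵢ/ℚ}(zᵢ) = cᵢ (f(t) + k) ≠ 0`, `i < r`, are smooth and geometrically rational, so that their
smooth projective models are geometrically rationally connected.

There is a finite set `T₀` of primes such that for every finite set `T` containing it, all `N` and `U`, and
all but `X / (log X) ^ U` of the integers `|k| ≤ X` satisfying a condition on signs, weak approximation of
level `N` at `T` holds for `V_k` in all coordinates: for every family of `p`-adic points `(t_p, z_p)`,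
`p` in `T`, whose coordinates are at most `p ^ N` in absolute value, with `|f(t_p) + k| ≥ p ^ (-N)`, there
is a rational point of `V_k` whose coordinates are within `p ^ (-N)` of those of `(t_p, z_p)` for all
`p` in `T`. If all `cᵢ` are `1` and the degree of `f` is prime to the degrees of the `Kᵢ`, then `T` is
any finite set of primes, and the condition on signs is not needed for odd degrees.

Proof. For almost all `k` there is a rational `t` very close to the `t_p` for which the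
`cᵢ (f(t) + k)` are norms of elements `wᵢ` of `Kᵢ` (`mainA` and `mainC`, the files of
`Pool/Agent/R479/NF`; this is the theorem behind `MP_12adaf_nt.AbelianNormForms`). As `f(t) + k` is close
to `f(t_p) + k`, its quotient by the latter is the `n`-th power of an `s` close to `1`, `n = [Kᵢ : ℚ]`, so
`s z_p` has the norm `cᵢ (f(t) + k)`. Then `wᵢ⁻¹ s z_p` has the norm `1` in the cyclic extension
`ℚ_p ⊗ Kᵢ` of `ℚ_p`, and by the theorem 90 of Hilbert for it (`NF/Hil`) it is `σ(b) / b`. Approximating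
the `b` at all `p` in `T` by an element of `Kᵢ` gives an element of norm `1` of `Kᵢ` close to them
(`NF/Tor`), and the product with `wᵢ` is the required element.
-/

set_option autoImplicit false

namespace Pool.Agent.Results.MP_83e36b_nt.CyclicNormForms

open Finset MvPolynomial NumberField Module TensorProduct

instance (p : Nat.Primes) : Fact (p : ℕ).Prime := ⟨p.2⟩

variable {L : Type} [Field L] [NumberField L] {r s : ℕ}

/-- The field `K` is cyclic over `ℚ`, its class number is prime to its degree, and `-1` is a norm or no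
negative number is a norm. -/
def Admissible (K : IntermediateField ℚ L) : Prop :=
  IsGalois ℚ K ∧ IsCyclic (K ≃ₐ[ℚ] K) ∧ (classNumber K).Coprime (finrank ℚ K) ∧
    ((∃ x : K, Algebra.norm ℚ x = -1) ∨ ∀ x : K, 0 ≤ Algebra.norm ℚ x)

/-- The point `(t, z)` with coordinates in the field `F` lies on `V_k`. The coordinates `zᵢ` form an
element of `F ⊗ Kᵢ`. -/
def OnV (K : Fin r → IntermediateField ℚ L) (f : MvPolynomial (Fin s) ℤ) (c : Fin r → ℤ) (k : ℤ)
    {F : Type} [Field F] [Algebra ℚ F] (t : Fin s → F) (z : (i : Fin r) → F ⊗[ℚ] (K i)) : Prop :=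
  aeval t f + (k : F) ≠ 0 ∧ ∀ i, Algebra.norm F (z i) = (c i : F) * (aeval t f + (k : F))

/-- The coordinates of an element of `F ⊗ K`, with respect to an integral basis of `K`. -/
noncomputable def coord (K : IntermediateField ℚ L) {F : Type} [Field F] [Algebra ℚ F] (z : F ⊗[ℚ] K)
    (j : Free.ChooseBasisIndex ℤ (𝓞 K)) : F :=
  (Algebra.TensorProduct.basis F (integralBasis K)).repr z j

/-- Weak approximation of level `N` at the primes of `T`: every family of `p`-adic points, `p` in `T`,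
with coordinates at most `p ^ N` in absolute value and with `|f(t_p) + k| ≥ p ^ (-N)`, has a rational point
within `p ^ (-N)` for all `p` in `T`. -/
def WeakApproximation (K : Fin r → IntermediateField ℚ L) (f : MvPolynomial (Fin s) ℤ) (c : Fin r → ℤ)
    (T : Finset Nat.Primes) (N : ℕ) (k : ℤ) : Prop :=
  ∀ (t : (p : Nat.Primes) → Fin s → ℚ_[(p : ℕ)]) (z : (p : Nat.Primes) → (i : Fin r) → ℚ_[(p : ℕ)] ⊗[ℚ] (K i)),
    (∀ p ∈ T, OnV K f c k (t p) (z p) ∧ (∀ j, ‖t p j‖ ≤ ((p : ℕ) : ℝ) ^ N) ∧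
      (∀ i j, ‖coord (K i) (z p i) j‖ ≤ ((p : ℕ) : ℝ) ^ N) ∧
      (((p : ℕ) : ℝ) ^ N)⁻¹ ≤ ‖aeval (t p) f + (k : ℚ_[(p : ℕ)])‖) →
    ∃ (x : Fin s → ℚ) (y : (i : Fin r) → ℚ ⊗[ℚ] (K i)), OnV K f c k x y ∧
      ∀ p ∈ T, (∀ j, ‖(x j : ℚ_[(p : ℕ)]) - t p j‖ ≤ (((p : ℕ) : ℝ) ^ N)⁻¹) ∧
        ∀ i j, ‖((coord (K i) (y i) j : ℚ) : ℚ_[(p : ℕ)]) - coord (K i) (z p i) j‖ ≤ (((p : ℕ) : ℝ) ^ N)⁻¹

/-- The condition at the real place: there is a sign `σ` such that `σ cᵢ > 0` if `-1` is not a norm from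
`Kᵢ`, and such that `σ k > 0` or the leading form of `f` takes a value of the sign `σ` at an integral
vector. -/
def RealCond (K : Fin r → IntermediateField ℚ L) (f : MvPolynomial (Fin s) ℤ) (c : Fin r → ℤ) (k : ℤ) :
    Prop :=
  ∃ σ : ℤ, (σ = 1 ∨ σ = -1) ∧ (∀ i, (∃ x : K i, Algebra.norm ℚ x = -1) ∨ 0 < σ * c i) ∧
    (0 < σ * k ∨ ∃ v : Fin s → ℤ, 0 < σ * eval v (homogeneousComponent f.totalDegree f))

lemma wa_of_glD (K : Fin r → IntermediateField ℚ L) (f : MvPolynomial (Fin s) ℤ) (c : Fin r → ℤ)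
    (T : Finset Nat.Primes) (N : ℕ) (k : ℤ)
    (h : ∀ t z, Pool.Agent.R479.NF.LcD K f c T N k t z → Pool.Agent.R479.NF.GlD K f c T N k t z) :
    WeakApproximation K f c T N k := by
  intro t z hloc
  obtain ⟨x, y, h1, h2, h3⟩ := h t z (fun p hp => ⟨(hloc p hp).2.1, (hloc p hp).2.2.2, fun i =>
    ⟨(hloc p hp).1.2 i, fun j => (hloc p hp).2.2.1 i j⟩⟩)
  refine ⟨x, fun i => (1 : ℚ) ⊗ₜ[ℚ] y i, ⟨h1, fun i => ?_⟩, fun p hp => ⟨(h3 p hp).1, fun i j => ?_⟩⟩
  · rw [Pool.Agent.R479.NF.norm_one_tmul_rat, h2 i]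
  · have h4 := (h3 p hp).2 i j
    have e : ((coord (K i) ((1 : ℚ) ⊗ₜ[ℚ] y i) j : ℚ) : ℚ_[(p : ℕ)]) =
        Pool.Agent.R479.NF.cd (p : ℕ) ((1 : ℚ_[(p : ℕ)]) ⊗ₜ[ℚ] (y i) : Pool.Agent.R479.NF.Ap (K i) (p : ℕ)) j := by
      unfold coord Pool.Agent.R479.NF.cd
      rw [Basis.equivFun_apply, Algebra.TensorProduct.basis_repr_tmul, Algebra.TensorProduct.basis_repr_tmul]
      simp
    rw [e]
    exact h4

lemma gen_of_cyclic {K : IntermediateField ℚ L} (h : IsCyclic (K ≃ₐ[ℚ] K)) :
    ∃ σ : K ≃ₐ[ℚ] K, Pool.Agent.R479.NF.Gen σ := h.exists_generator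

open Classical in
/-- Almost all of the `V_k` satisfy weak approximation of level `N` at `T`. Here `L` is the `m`-th
cyclotomic field, and the `Kᵢ` are subfields of it which are cyclic over `ℚ`. In the second part all `cᵢ`
are `1`, and `T` is any finite set of primes. -/
theorem result (m : ℕ) [NeZero m] [IsCyclotomicExtension {m} ℚ L] (K : Fin r → IntermediateField ℚ L)
    (hK : ∀ i, Admissible (K i)) (f : MvPolynomial (Fin s) ℤ) (hf : 2 ≤ f.totalDegree) :
    (∀ c : Fin r → ℤ, (∀ i, c i ≠ 0) →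
      ∃ T₀ : Finset Nat.Primes, ∀ T : Finset Nat.Primes, T₀ ⊆ T → ∀ N U : ℕ, ∃ X₀ : ℕ, ∀ X : ℕ, X₀ ≤ X →
      (#{k ∈ Icc (-(X : ℤ)) X | ¬ (RealCond K f c k → WeakApproximation K f c T N k)} : ℝ) ≤
        X / Real.log X ^ U) ∧
    ((∀ i, f.totalDegree.Coprime (finrank ℚ (K i))) →
      (Odd f.totalDegree ∨ ∀ i, ∃ x : K i, Algebra.norm ℚ x = -1) →
      ∀ (T : Finset Nat.Primes) (N U : ℕ), ∃ X₀ : ℕ, ∀ X : ℕ, X₀ ≤ X →
      (#{k ∈ Icc (-(X : ℤ)) X | ¬ WeakApproximation K f (fun _ => 1) T N k} : ℝ) ≤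
        X / Real.log X ^ U) := by
  have : ∀ i, IsGalois ℚ (K i) := fun i => (hK i).1
  have hcyc : ∀ i, ∃ σ : K i ≃ₐ[ℚ] K i, Pool.Agent.R479.NF.Gen σ := fun i => gen_of_cyclic (hK i).2.1
  constructor
  · intro c hc
    obtain ⟨T₀, h⟩ := Pool.Agent.R479.NF.mainD m K hcyc (fun i => (hK i).2.2.1) (fun i => (hK i).2.2.2) f hf c hc
    refine ⟨T₀, fun T hT N U => ?_⟩
    obtain ⟨X₀, h⟩ := h T hT N U
    refine ⟨X₀, fun X hX => ?_⟩
    obtain ⟨Bad, hB1, hB2⟩ := h X hX
    refine le_trans ?_ hB1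
    have hsub : {k ∈ Icc (-(X : ℤ)) X | ¬ (RealCond K f c k → WeakApproximation K f c T N k)} ⊆ Bad := by
      intro k hk
      rw [mem_filter, mem_Icc] at hk
      by_contra hkB
      apply hk.2
      intro hr
      apply wa_of_glD
      exact hB2 k (abs_le.2 hk.1) hkB (by
        obtain ⟨σ, hσ, h1, h2⟩ := hr
        refine ⟨σ, hσ, h1, ?_⟩
        simp only [Pool.Agent.TH204.HP.lead_eq]
        exact h2)
    exact_mod_cast card_le_card hsub
  · intro hcop hodd T N U
    obtain ⟨N', hN'⟩ : ∃ N', N' = (2 * f.totalDegree + 1) * N + 2 * N + 2 * (∑ i, finrank ℚ (K i)) + 1 :=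
      ⟨_, rfl⟩
    obtain ⟨X₀, h⟩ := Pool.Agent.R479.NF.mainC m K (fun i => (hK i).2.2.1) (fun i => (hK i).2.2.2) f hf hcop
      hodd T N' U
    refine ⟨X₀, fun X hX => ?_⟩
    obtain ⟨Bad, hB1, hB2⟩ := h X hX
    refine le_trans ?_ hB1
    have hsub : {k ∈ Icc (-(X : ℤ)) X | ¬ WeakApproximation K f (fun _ => 1) T N k} ⊆ Bad := by
      intro k hk
      rw [mem_filter, mem_Icc] at hk
      by_contra hkB
      apply hk.2
      apply wa_of_glD
      intro t z hloc
      refine Pool.Agent.R479.NF.glD_of_gl K hcyc f (fun _ => 1) (fun _ => one_ne_zero) T N N' hN' k t z hloc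
        (hB2 k (abs_le.2 hk.1) hkB t ?_)
      intro p hp
      obtain ⟨h1, h2, h3⟩ := hloc p hp
      have h1p : (1 : ℝ) < ((p : ℕ) : ℝ) := by exact_mod_cast p.2.one_lt
      have h0p : (0 : ℝ) < ((p : ℕ) : ℝ) := by linarith
      have hNN : N ≤ N' := by
        rw [hN']
        exact le_trans (by omega : N ≤ 2 * N) (le_trans (Nat.le_add_left _ _)
          (le_trans (Nat.le_add_right _ _) (Nat.le_add_right _ _)))
      exact ⟨fun j => (h1 j).trans (pow_le_pow_right₀ h1p.le hNN),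
        (inv_anti₀ (by positivity) (pow_le_pow_right₀ h1p.le hNN)).trans h2, fun i => ⟨z p i, (h3 i).1⟩⟩
    exact_mod_cast card_le_card hsub

end Pool.Agent.Results.MP_83e36b_nt.CyclicNormForms
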