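import Pool.Agent.Results.MP_83e36b_nt.CyclicNormForms
import Pool.Agent.R482.ST.SlowD

/-!
# Weak approximation for all varieties `N_{Kᵢ/ℚ}(zᵢ) = cᵢ (f(t) + k)` with `k` near the powers of almost every number

Let the `Kᵢ` be cyclic fields as in `CyclicNormForms` (class number prime to the degree, and `-1` is a norm or no negative
number is a norm), and let `v_n ≥ 1` be a sequence with a finite exponent of convergence (for instance `v_n = n + 1` or
`v_n = 3 ^ n`). For almost every `α > 1`, for ALL integral polynomials `f` of degree at least two in any number of variables, all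
nonzero integers `cᵢ` and all `A`: there is a finite set `T₀` of primes such that for all finite `T` containing it, all levels
`N` and all large `n`, weak approximation of level `N` at `T` holds for the varieties `V_k : N_{Kᵢ/ℚ}(zᵢ) = cᵢ (f(t) + k) ≠ 0` for
ALL integers `k` with `||k| - α ^ (v_n)| ≤ v_n ^ A` which satisfy the condition on signs. If all `cᵢ` are `1` and the degree of `f` is
prime to those of the `Kᵢ` then `T` is any finite set of primes.
-/

set_option autoImplicit false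

namespace Pool.Agent.Results.MP_83e36b_nt.NearPowers

open Finset MvPolynomial MeasureTheory Module
open CyclicNormForms (Admissible RealCond WeakApproximation)
open Pool.Agent.R482.ST (Thin)

variable {L : Type} [Field L] [NumberField L] {r : ℕ}

/-- the assertions on the integers `k` in the sets `w n`, for all large `n` -/
def Holds (K : Fin r → IntermediateField ℚ L) (w : ℕ → ℤ → Prop) : Prop :=
  ∀ (s : ℕ) (f : MvPolynomial (Fin s) ℤ), 2 ≤ f.totalDegree →
    (∀ c : Fin r → ℤ, (∀ i, c i ≠ 0) → ∃ T₀ : Finset Nat.Primes, ∀ T : Finset Nat.Primes, T₀ ⊆ T → ∀ N : ℕ,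
      ∃ n₀ : ℕ, ∀ n : ℕ, n₀ ≤ n → ∀ k : ℤ, w n k → RealCond K f c k → WeakApproximation K f c T N k) ∧
    ((∀ i, f.totalDegree.Coprime (finrank ℚ (K i))) → (Odd f.totalDegree ∨ ∀ i, ∃ x : K i, Algebra.norm ℚ x = -1) →
      ∀ (T : Finset Nat.Primes) (N : ℕ), ∃ n₀ : ℕ, ∀ n : ℕ, n₀ ≤ n → ∀ k : ℤ, w n k →
        WeakApproximation K f (fun _ => 1) T N k)

/-- the data -/
abbrev J (r : ℕ) : Type := Σ s : ℕ, MvPolynomial (Fin s) ℤ × (Fin r → ℤ) × Finset Nat.Primes × ℕ

lemma countable_J (r : ℕ) : Countable (J r) := by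
  have h : ∀ s : ℕ, Countable (MvPolynomial (Fin s) ℤ) := fun s => by
    rw [← Cardinal.mk_le_aleph0_iff]
    refine (MvPolynomial.cardinalMk_le_max).trans ?_
    simp
  infer_instance

def Q1 (K : Fin r → IntermediateField ℚ L) (j : J r) (k : ℤ) : Prop :=
  ¬ (RealCond K j.2.1 j.2.2.1 k → WeakApproximation K j.2.1 j.2.2.1 j.2.2.2.1 j.2.2.2.2 k)

def Q2 (K : Fin r → IntermediateField ℚ L) (j : J r) (k : ℤ) : Prop :=
  ¬ WeakApproximation K j.2.1 (fun _ => 1) j.2.2.2.1 j.2.2.2.2 k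

lemma core (m : ℕ) [NeZero m] [IsCyclotomicExtension {m} ℚ L] (K : Fin r → IntermediateField ℚ L)
    (hK : ∀ i, Admissible (K i)) {w : ℕ → ℤ → Prop}
    (h1 : ∀ j : J r, Thin (Q1 K j) → ∃ n₀ : ℕ, ∀ n : ℕ, n₀ ≤ n → ∀ k : ℤ, w n k → ¬ Q1 K j k)
    (h2 : ∀ j : J r, Thin (Q2 K j) → ∃ n₀ : ℕ, ∀ n : ℕ, n₀ ≤ n → ∀ k : ℤ, w n k → ¬ Q2 K j k) : Holds K w := by
  classical
  intro s f hf
  obtain ⟨r1, r2⟩ := CyclicNormForms.result m K hK f hf
  refine ⟨fun c hc => ?_, fun hco hodd T N => ?_⟩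
  · obtain ⟨T₀, hT₀⟩ := r1 c hc
    refine ⟨T₀, fun T hT N => ?_⟩
    obtain ⟨n₀, hn⟩ := h1 ⟨s, f, c, T, N⟩ (Pool.Agent.R482.ST.thin_of_card _ fun U => by
      convert hT₀ T hT N U using 8
      exact Iff.rfl)
    exact ⟨n₀, fun n hn1 k hk hr => not_not.1 (hn n hn1 k hk) hr⟩
  · obtain ⟨n₀, hn⟩ := h2 ⟨s, f, fun _ => 1, T, N⟩ (Pool.Agent.R482.ST.thin_of_card _ fun U => by
      convert r2 hco hodd T N U using 8
      exact Iff.rfl)
    exact ⟨n₀, fun n hn1 k hk => not_not.1 (hn n hn1 k hk)⟩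

/-- **Theorem.** Let `L` be the `m`-th cyclotomic field and `Kᵢ` subfields of it which are cyclic over `ℚ`, with class number
prime to the degree, and such that `-1` is a norm or no negative number is a norm. (1) Let `v_n ≥ 1` be a sequence with a finite
exponent of convergence. For almost every `α > 1` and all `A`, the assertions `Holds` are true for the integers `k` with
`||k| - α ^ (v_n)| ≤ v_n ^ A`: for ALL `f`, `c`, for a finite set `T₀`, all finite `T ⊇ T₀`, all `N` and all large `n`, weak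
approximation of level `N` at `T` holds for ALL `V_k` with such `k` which satisfy the condition on signs; and for all `T` and
without this condition if `c = 1`, the degree of `f` is prime to the degrees of the `Kᵢ`, and it is odd or `-1` is always a
norm. (2) The same for the powers `α ^ n` and `||k| - α ^ n| ≤ n ^ A`. -/
theorem result (m : ℕ) [NeZero m] [IsCyclotomicExtension {m} ℚ L] (K : Fin r → IntermediateField ℚ L)
    (hK : ∀ i, Admissible (K i)) :
    (∀ (v : ℕ → ℝ) (t : ℝ), (∀ n, 1 ≤ v n) → (Summable fun n => (v n) ^ (-t)) →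
      ∃ E : Set ℝ, volume E = 0 ∧ ∀ α : ℝ, 1 < α → α ∉ E → ∀ A : ℕ,
        Holds K (fun n k => |(|k| : ℝ) - α ^ (v n)| ≤ (v n) ^ A)) ∧
    ∃ E : Set ℝ, volume E = 0 ∧ ∀ α : ℝ, 1 < α → α ∉ E → ∀ A : ℕ,
      Holds K (fun n k => |(|k| : ℝ) - α ^ n| ≤ (n : ℝ) ^ A) := by
  have := countable_J r
  refine ⟨fun v t hv ht => ?_, ?_⟩
  · obtain ⟨E1, e1, f1⟩ := Pool.Agent.R482.ST.thin_family (Q1 K) hv ht
    obtain ⟨E2, e2, f2⟩ := Pool.Agent.R482.ST.thin_family (Q2 K) hv ht
    refine ⟨E1 ∪ E2, measure_union_null e1 e2, fun α hα hαE A => core m K hK (fun j hj => ?_) (fun j hj => ?_)⟩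
    · exact f1 α hα (fun h => hαE (Or.inl h)) j hj A
    · exact f2 α hα (fun h => hαE (Or.inr h)) j hj A
  · obtain ⟨E1, e1, f1⟩ := Pool.Agent.R482.ST.thin_family_pow (Q1 K)
    obtain ⟨E2, e2, f2⟩ := Pool.Agent.R482.ST.thin_family_pow (Q2 K)
    refine ⟨E1 ∪ E2, measure_union_null e1 e2, fun α hα hαE A => core m K hK (fun j hj => ?_) (fun j hj => ?_)⟩
    · exact f1 α hα (fun h => hαE (Or.inl h)) j hj A
    · exact f2 α hα (fun h => hαE (Or.inr h)) j hj A

end Pool.Agent.Results.MP_83e36b_nt.NearPowers
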