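import Pool.Agent.R479.NF.Br7

/-!
# MP_83e36b_nt: weak approximation for 100% of the varieties `N_{Kᵢ/ℚ}(zᵢ) = bᵢ t (f(t) + k)`

Let `f` be an integral polynomial in one variable of degree `d ≥ 1`, let the `bᵢ` be nonzero integers, and
let the `Kᵢ` be subfields of a cyclotomic field, of any degrees, with class numbers prime to their degrees,
such that `-1` is a norm (for example, if the degree is odd) or all norms are nonnegative. The varieties
`W_k : N_{Kᵢ/ℚ}(zᵢ) = bᵢ t (f(t) + k) ≠ 0`, `i < r`, are smooth and geometrically rational, so that their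
smooth projective models are geometrically rationally connected. The right hand side has, besides the
roots of `f + k`, the fixed root `0`, and there are in general nonconstant elements of the Brauer group of
the smooth projective models: for instance, if `r = 1` and `K₁` is cyclic of a prime degree not dividing
`d + 1`, then the class `(χ, t)` is unramified, for a character `χ` which defines `K₁`.

For `r = 1` and quadratic `K₁` the following is `MP_83e36b_nt.ShiftedWithBrauerClass`. Let `T` be a finite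
set of primes, containing a given finite set `T₀`, or any finite set if the `bᵢ` are equal, and let `N` be
any integer. Then for 100% of the integers `k` all families of points `(t_p, z_p)` of `W_k(ℚ_p)`, `p` in
`T`, (with coordinates at most `p ^ N` in absolute value, and at least `p ^ (-N)` for `t_p` and
`f(t_p) + k`) and of a real point can be approximated by rational points `(s, y)` of `W_k`: `s` is within
`p ^ (-N)` of `t_p` for all `p` in `T` and has the sign of the coordinate `t` of the real point, and for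
the `i` for which `Kᵢ` is cyclic the coordinates of `yᵢ` are within `p ^ (-N)` of those of `z_{p,i}`, too.
So 100% of the time there is no obstruction at `T`; in particular (`T` empty, equal `bᵢ`) the `k` for
which `W_k` has a real point, but no rational point, have the density `0`.

Proof. Let `Kᵢ ⊂ ℚ(ζ_m)` and let `n` be twice the product of the degrees. (i) `NF/Br2`, `exists_cr`: let
the integer `u₀` be close to `t_p`, times an `n`-th power, for all `p` in `T`. For any prime `q` outside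
`T` in a residue class modulo `m` which depends on `u₀` only, there is an integer `c` close to `u₀` at `T`,
of the right sign, which is the product of primes of `T`, of `q ^ j`, where `j + 1` is divisible by `n` and
by `φ(m)`, and of a large prime `l` congruent to `1` modulo `m` (theorem of Dirichlet). The primes in the
residue class have a divergent sum of reciprocals, so for all but `δ X` of the `k` one of those in a finite
set depending on `δ` only divides `f(0) + k` exactly once. (ii) `NF/Br4`, `idx`: for such `q` and `k` we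
look for `t = c v ^ n`. Then `bᵢ t (f(t) + k)` is `bᵢ c (f(c v ^ n) + k)` up to `n`-th powers, and
`f(c v ^ n) + k` is of the form considered in `MP_12adaf_nt.AbelianNormForms`. There are local solutions at
`q`, namely `v = 1`, since the right hand side has the valuation `j + 1` there and units are norms, and at
`l`, since `l` splits completely. As there are finitely many `u₀` and `q`, for given `T`, `N` and `δ`, the
main theorem of the proof there (`NF/Br1`, `mainU`) applies to the finitely many polynomials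
`f(c v ^ n)`. (iii) `NF/Br6`: if the `bᵢ` are equal to `b` then at any prime `p` there is a local point
with `t = (b (f(0) + k)) ^ (n - 1) p ^ (3 n)`, so that the primes of `T₀` can be added to `T`. (iv) The
coordinates of the `zᵢ` are approximated with the theorem 90 of Hilbert as in
`MP_83e36b_nt.CyclicNormForms` (`NF/Br6`, `wa_one`, and `NF/Br7`).
-/

set_option autoImplicit false

namespace Pool.Agent.Results.MP_83e36b_nt.NormFormsWithBrauerClass

open Finset Polynomial Filter Topology NumberField Module TensorProduct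

instance (p : Nat.Primes) : Fact (p : ℕ).Prime := ⟨p.2⟩

variable {L : Type} [Field L] [NumberField L] {r : ℕ}

/-- The class number of the field `K` is prime to its degree, and `-1` is a norm or no negative number is a
norm. -/
def Admissible (K : IntermediateField ℚ L) : Prop :=
  (classNumber K).Coprime (finrank ℚ K) ∧
    ((∃ x : K, Algebra.norm ℚ x = -1) ∨ ∀ x : K, 0 ≤ Algebra.norm ℚ x)

/-- The point `(t, z)` with coordinates in the field `F` lies on
`W_k : N_{Kᵢ/ℚ}(zᵢ) = bᵢ t (f(t) + k) ≠ 0`. The coordinates `zᵢ` form an element of `F ⊗ Kᵢ`. -/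
def OnW (K : Fin r → IntermediateField ℚ L) (f : ℤ[X]) (b : Fin r → ℤ) (k : ℤ)
    {F : Type} [Field F] [Algebra ℚ F] (t : F) (z : (i : Fin r) → F ⊗[ℚ] (K i)) : Prop :=
  t ≠ 0 ∧ aeval t f + (k : F) ≠ 0 ∧ ∀ i, Algebra.norm F (z i) = (b i : F) * (t * (aeval t f + (k : F)))

/-- The coordinates of an element of `F ⊗ K`, with respect to an integral basis of `K`. -/
noncomputable def coord (K : IntermediateField ℚ L) {F : Type} [Field F] [Algebra ℚ F] (z : F ⊗[ℚ] K)
    (j : Free.ChooseBasisIndex ℤ (𝓞 K)) : F :=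
  (Algebra.TensorProduct.basis F (integralBasis K)).repr z j

/-- Given points: for all `p` in `T` the point `(t_p, z_p)` lies on `W_k`, its coordinates have absolute
value at most `p ^ N` and `|t_p| ≥ p ^ (-N)`, `|f(t_p) + k| ≥ p ^ (-N)`; and `(tr, zr)` is a real point of
`W_k`. -/
def Given (K : Fin r → IntermediateField ℚ L) (f : ℤ[X]) (b : Fin r → ℤ) (T : Finset Nat.Primes) (N : ℕ)
    (k : ℤ) (t : (p : Nat.Primes) → ℚ_[(p : ℕ)]) (z : (p : Nat.Primes) → (i : Fin r) → ℚ_[(p : ℕ)] ⊗[ℚ] (K i))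
    (tr : ℝ) (zr : (i : Fin r) → ℝ ⊗[ℚ] (K i)) : Prop :=
  (∀ p ∈ T, OnW K f b k (t p) (z p) ∧ ‖t p‖ ≤ ((p : ℕ) : ℝ) ^ N ∧
    (∀ i j, ‖coord (K i) (z p i) j‖ ≤ ((p : ℕ) : ℝ) ^ N) ∧ (((p : ℕ) : ℝ) ^ N)⁻¹ ≤ ‖t p‖ ∧
    (((p : ℕ) : ℝ) ^ N)⁻¹ ≤ ‖aeval (t p) f + (k : ℚ_[(p : ℕ)])‖) ∧ OnW K f b k tr zr

/-- There is a rational point `(s, y)` of `W_k` such that `s` has the sign of `tr` and is within `p ^ (-N)`
of `t_p` for all `p` in `T`, and such that the coordinates of `yᵢ` are within `p ^ (-N)` of those of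
`z_{p,i}` for all `p` in `T` and all `i` for which `Kᵢ` is cyclic over `ℚ`. -/
def Approximated (K : Fin r → IntermediateField ℚ L) (f : ℤ[X]) (b : Fin r → ℤ) (T : Finset Nat.Primes)
    (N : ℕ) (k : ℤ) (t : (p : Nat.Primes) → ℚ_[(p : ℕ)])
    (z : (p : Nat.Primes) → (i : Fin r) → ℚ_[(p : ℕ)] ⊗[ℚ] (K i)) (tr : ℝ) : Prop :=
  ∃ (s : ℚ) (y : (i : Fin r) → ℚ ⊗[ℚ] (K i)), OnW K f b k s y ∧ 0 < (s : ℝ) * tr ∧
    ∀ p ∈ T, ‖(s : ℚ_[(p : ℕ)]) - t p‖ ≤ (((p : ℕ) : ℝ) ^ N)⁻¹ ∧
      ∀ i, IsGalois ℚ (K i) → IsCyclic (K i ≃ₐ[ℚ] K i) → ∀ j,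
        ‖((coord (K i) (y i) j : ℚ) : ℚ_[(p : ℕ)]) - coord (K i) (z p i) j‖ ≤ (((p : ℕ) : ℝ) ^ N)⁻¹

/-- Weak approximation of level `N` at the primes of `T`. -/
def WeakApproximation (K : Fin r → IntermediateField ℚ L) (f : ℤ[X]) (b : Fin r → ℤ)
    (T : Finset Nat.Primes) (N : ℕ) (k : ℤ) : Prop :=
  ∀ (t : (p : Nat.Primes) → ℚ_[(p : ℕ)]) (z : (p : Nat.Primes) → (i : Fin r) → ℚ_[(p : ℕ)] ⊗[ℚ] (K i))
    (tr : ℝ) (zr : (i : Fin r) → ℝ ⊗[ℚ] (K i)), Given K f b T N k t z tr zr → Approximated K f b T N k t z tr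

lemma wa_of (K : Fin r → IntermediateField ℚ L) (hK : ∀ i, Admissible (K i)) (f : ℤ[X]) (b : Fin r → ℤ)
    (hb : ∀ i, b i ≠ 0) (T : Finset Nat.Primes) (N E : ℕ)
    (hE : E = (2 * (f.natDegree + 1) + 3) * (2 * N + 2 * ∑ i, finrank ℚ (K i)) + 3) (k : ℤ)
    (h : ∀ (t : (p : Nat.Primes) → ℚ_[(p : ℕ)]) (tr : ℝ), Pool.Agent.R479.NF.WL K f b T E k t →
      Pool.Agent.R479.NF.WR K f b k tr → Pool.Agent.R479.NF.WG K f b T E k t tr) :
    WeakApproximation K f b T N k := by
  intro t z tr zr hg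
  have hNE : N ≤ E := by
    rw [hE]
    nlinarith [Nat.zero_le (∑ i, finrank ℚ (K i))]
  have hloc : Pool.Agent.R479.NF.WLD K f b T N k t z := by
    intro p hp
    obtain ⟨h1, h2, h3, h4, h5⟩ := hg.1 p hp
    exact ⟨h2, h4, h5, fun i => ⟨h1.2.2 i, fun j => h3 i j⟩⟩
  have hre : Pool.Agent.R479.NF.WR K f b k tr := by
    obtain ⟨h1, h2, h3⟩ := hg.2
    refine ⟨h1, h2, fun i => ?_⟩
    rcases (hK i).2 with h4 | h4
    · exact Or.inl h4
    · right
      have h5 := Pool.Agent.R479.NF.real_nonneg h4 (zr i)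
      rw [h3 i] at h5
      exact lt_of_le_of_ne h5 (mul_ne_zero (by exact_mod_cast hb i) (mul_ne_zero h1 h2)).symm
  obtain ⟨s, y, h1, h2, h3, h4⟩ := Pool.Agent.R479.NF.wd_of K f b hb T N E hE k t z tr hloc
    (h t tr (Pool.Agent.R479.NF.wl_of_wld hloc hNE) hre)
  refine ⟨s, fun i => (1 : ℚ) ⊗ₜ[ℚ] y i, ⟨?_, h2, fun i => ?_⟩, h1, fun p hp => ⟨(h4 p hp).1, fun i hc1 hc2 j => ?_⟩⟩
  · rintro rfl
    simp at h1
  · rw [Pool.Agent.R479.NF.norm_one_tmul_rat, h3 i]
  · have h5 := (h4 p hp).2 i hc1 hc2.exists_generator j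
    have e : ((coord (K i) ((1 : ℚ) ⊗ₜ[ℚ] y i) j : ℚ) : ℚ_[(p : ℕ)]) =
        Pool.Agent.R479.NF.cd (p : ℕ) ((1 : ℚ_[(p : ℕ)]) ⊗ₜ[ℚ] (y i) : Pool.Agent.R479.NF.Ap (K i) (p : ℕ)) j := by
      unfold coord Pool.Agent.R479.NF.cd
      rw [Basis.equivFun_apply, Algebra.TensorProduct.basis_repr_tmul, Algebra.TensorProduct.basis_repr_tmul]
      simp
    rw [e]
    exact h5

open Classical in
lemma tendsto_of (K : Fin r → IntermediateField ℚ L) (hK : ∀ i, Admissible (K i)) (f : ℤ[X]) (b : Fin r → ℤ)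
    (hb : ∀ i, b i ≠ 0) (T : Finset Nat.Primes) (N E : ℕ)
    (hE : E = (2 * (f.natDegree + 1) + 3) * (2 * N + 2 * ∑ i, finrank ℚ (K i)) + 3)
    (h : ∀ ε : ℝ, 0 < ε → ∃ X0 : ℕ, ∀ X : ℕ, X0 ≤ X → ∃ Bad : Finset ℤ, (#Bad : ℝ) ≤ ε * X ∧ ∀ k : ℤ, |k| ≤ X → k ∉ Bad →
      ∀ (t : (p : Nat.Primes) → ℚ_[(p : ℕ)]) (tr : ℝ), Pool.Agent.R479.NF.WL K f b T E k t →
      Pool.Agent.R479.NF.WR K f b k tr → Pool.Agent.R479.NF.WG K f b T E k t tr) :
    Tendsto (fun X : ℕ => (#{k ∈ Icc (-(X : ℤ)) X | ¬ WeakApproximation K f b T N k} : ℝ) / X) atTop (𝓝 0) := by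
  rw [Metric.tendsto_atTop]
  intro ε hε
  obtain ⟨X0, h⟩ := h (ε / 2) (by linarith)
  refine ⟨max X0 1, fun X hX => ?_⟩
  obtain ⟨Bad, hB1, hB2⟩ := h X ((le_max_left _ _).trans hX)
  have hX1 : (1 : ℝ) ≤ X := by exact_mod_cast (le_max_right _ _).trans hX
  rw [Real.dist_eq, sub_zero, abs_of_nonneg (by positivity), div_lt_iff₀ (by linarith)]
  have hsub : {k ∈ Icc (-(X : ℤ)) X | ¬ WeakApproximation K f b T N k} ⊆ Bad := by
    intro k hk
    rw [mem_filter, mem_Icc] at hk
    by_contra hkB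
    apply hk.2
    exact wa_of K hK f b hb T N E hE k (hB2 k (abs_le.2 hk.1) hkB)
  have h2 : (#{k ∈ Icc (-(X : ℤ)) X | ¬ WeakApproximation K f b T N k} : ℝ) ≤ #Bad := by
    exact_mod_cast card_le_card hsub
  refine lt_of_le_of_lt (h2.trans hB1) ?_
  nlinarith

open Classical in
/-- 100% of the `W_k` satisfy weak approximation of level `N` at `T`. Here `L` is the `m`-th cyclotomic
field, and the `Kᵢ` are subfields of it. In the second part the `bᵢ` are equal, and `T` is any finite set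
of primes. -/
theorem result (m : ℕ) [NeZero m] [IsCyclotomicExtension {m} ℚ L] (K : Fin r → IntermediateField ℚ L)
    (hK : ∀ i, Admissible (K i)) (f : ℤ[X]) (hf : 1 ≤ f.natDegree) :
    (∀ b : Fin r → ℤ, (∀ i, b i ≠ 0) →
      ∃ T₀ : Finset Nat.Primes, ∀ T : Finset Nat.Primes, T₀ ⊆ T → ∀ N : ℕ,
      Tendsto (fun X : ℕ => (#{k ∈ Icc (-(X : ℤ)) X | ¬ WeakApproximation K f b T N k} : ℝ) / X)
        atTop (𝓝 0)) ∧
    (∀ b : ℤ, b ≠ 0 → ∀ (T : Finset Nat.Primes) (N : ℕ),
      Tendsto (fun X : ℕ => (#{k ∈ Icc (-(X : ℤ)) X | ¬ WeakApproximation K f (fun _ => b) T N k} : ℝ) / X)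
        atTop (𝓝 0)) := by
  constructor
  · intro b hb
    obtain ⟨T0, hT0⟩ := Pool.Agent.TH204.HP.primes_upto (Pool.Agent.R479.NF.ex K * f.natDegree +
      f.leadingCoeff.natAbs + m + ∑ i, (b i).natAbs)
    have hm0 : 0 < m := Nat.pos_of_ne_zero (NeZero.ne m)
    have hf0 : f.leadingCoeff ≠ 0 := by
      rw [Ne, leadingCoeff_eq_zero]
      rintro rfl
      simp at hf
    refine ⟨T0, fun T hT N => ?_⟩
    refine tendsto_of K hK f b hb T N _ rfl (fun ε hε => ?_)
    refine Pool.Agent.R479.NF.brT m K (fun i => (hK i).1) (fun i => (hK i).2) f hf b hb T ?_ _ ε hε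
    intro p hp
    apply hT
    apply hT0
    rcases hp with h | h | h | ⟨i, h⟩
    · omega
    · have := Nat.le_of_dvd (Int.natAbs_pos.2 hf0) (Int.natCast_dvd.1 h)
      omega
    · have := Nat.le_of_dvd hm0 h
      omega
    · have h1 := Nat.le_of_dvd (Int.natAbs_pos.2 (hb i)) (Int.natCast_dvd.1 h)
      have h2 : (b i).natAbs ≤ ∑ i, (b i).natAbs :=
        single_le_sum (f := fun i => (b i).natAbs) (fun _ _ => Nat.zero_le _) (mem_univ i)
      omega
  · intro b hb T N
    refine tendsto_of K hK f (fun _ => b) (fun _ => hb) T N _ rfl (fun ε hε => ?_)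
    exact Pool.Agent.R479.NF.brAny m K (fun i => (hK i).1) (fun i => (hK i).2) f hf b hb T _ ε hε

end Pool.Agent.Results.MP_83e36b_nt.NormFormsWithBrauerClass
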