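import Pool.Agent.R479.NF.Sw7

/-!
# MP_83e36b_nt: weak approximation for 100% of the systems `N_{Kᵢ/ℚ}(zᵢ) = cᵢ ∏_{j ∈ E_i} (f_j(t) + k_j)`

Let `f_1, …, f_s` be any nonconstant integral polynomials in one variable `t`, let `{1, …, s}` be the
disjoint union of the nonempty sets `ψ⁻¹(y)`, `y < e`, let `φ` be a map from the indices `i < r` to the
indices `y`, let the `cᵢ` be nonzero integers, and let the `Kᵢ`, `i < r`, be subfields of a cyclotomic
field, of any degrees, not necessarily different, with class numbers prime to their degrees, such that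
`-1` is a norm (for example, if the degree is odd) or all norms are nonnegative. For `k` in `ℤ^s` let `V_k`
be the variety

`N_{Kᵢ/ℚ}(zᵢ) = cᵢ ∏_{j ∈ ψ⁻¹(φ(i))} (f_j(t) + k_j)`, `i < r`, with all the `f_j(t) + k_j` different from `0`.

It is smooth and geometrically rational, so that its smooth projective models are geometrically rationally
connected; there are arbitrarily many degenerate fibres, over points of arbitrary degrees, and the Brauer
group of the models is not trivial in general: for instance, if `r = 1` and `K₁` is cyclic of the prime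
degree `l`, defined by the character `χ`, then the classes `∑ a_j (χ, f_j(t) + k_j)` with
`∑ a_j deg f_j` divisible by `l` are unramified, and they are in general not constant if `(a_j)` is not
proportional to `(1, …, 1)` modulo `l`. Only the constant terms of the polynomials vary.

We show: for 100% of the `k` with `|k_j| ≤ B X ^ deg f_j`, `X → ∞`, the following holds. Let `T` be a finite
set of primes which contains the primes up to `∑ deg f_j` and those dividing `m`, where `ℚ(ζ_m)` contains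
the `Kᵢ`, the leading coefficients of the `f_j` or some `cᵢ`; or any finite set of primes, for example the
empty set, if `cᵢ` times the product of the leading coefficients of the `f_j`, `j` in `ψ⁻¹(φ(i))`, is the
norm of an element of `Kᵢ` for all `i`, for example if the `f_j` are monic and the `cᵢ` are equal to `1`.
Then all families of points of `V_k` over the `ℚ_p`, `p` in `T`, and over `ℝ` (not too large and not too
close to the degenerate fibres, `N` and `B` fixed before `k`) can be approximated by rational points of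
`V_k`: `t` at the primes of `T` and at the real place, where sizes and distances are measured at the
natural scale `t ~ X`, together with the signs of all the `f_j(t) + k_j`; and `zᵢ` at the primes of `T` for
all `i` for which `Kᵢ` is cyclic. So for 100% of the `k` the Brauer group does not obstruct at `T`.

Proof. Let `n` be twice the product of the degrees of the `Kᵢ`, and let `β(y)` be one element of each
`ψ⁻¹(y)`. (i) For all but `∏ X ^ {deg f_j} / (log X) ^ U` of the `k` there is a rational `t` near given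
points for which the `|f_j(t) + k_j|` are prime numbers up to the primes of a given finite set
(`NF/Sv1`, the main estimate is the one behind `MP_83e36b_nt.SeveralShifts`), and then all
`C_{ij} (f_j(t) + k_j)` which are norms from `Kᵢ` locally at this set are norms from `Kᵢ` (`NF/Core`,
`NF/Sv2`, `NF/Sv3`). (ii) For `j` different from the `β(y)`, and a prime `q` outside `T` in a residue class
modulo `m` which depends on the point `t_p` modulo powers of the `p` in `T`, there is an integer `C_j`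
close to `(f_j(t_p) + k_j) ^ (n - 1)`, up to `n`-th powers, at all `p` in `T`, of the sign of
`f_j(t) + k_j` at the real place, which is a product of primes of `T`, of a power of `q`, with an exponent
congruent to `-1` modulo `n`, and of a prime `l` which splits completely (`NF/Sw2`, `exists_cr2`). (iii)
For 100% of the `k` there are such `q`, different for the different `j`, and an integer `t` for which
`f_j(t) + k_j` is exactly divisible by `q` and `f_{β(y)}(t) + k_{β(y)}`, `y = ψ(j)`, is exactly divisible by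
`q ^ (n - 1)`, the others being prime to `q`: the proportion of the `k` with this property is at least
`const / q`, for different `q` they are independent, and the sum of the `1 / q` diverges
(`NF/Sw1`, `NF/Sw2`, `hit_set`). (iv) Then (i) applies, with the set `T` and all the `q` and `l`, to the
multipliers `C_j`, for `j` different from the `β(y)`, and `cᵢ ∏_j C_j ^ (n - 1)` for `β(y)`, `y = φ(i)`; the
product of all these values is `cᵢ ∏_j (f_j(t) + k_j)` times an `n`-th power (`NF/Sw4`, `lemA`, and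
`NF/Sw5`). (v) At the primes outside `T` there are points with `t` large, if the condition on the
leading coefficients holds (`NF/Sw7`). (vi) The coordinates of the `zᵢ` are approximated with the theorem
90 of Hilbert as in `MP_83e36b_nt.CyclicNormForms`.
-/

set_option autoImplicit false

namespace Pool.Agent.Results.MP_83e36b_nt.ProductsOfShiftedPolynomials

open Finset Polynomial Filter Topology NumberField Module TensorProduct

instance (p : Nat.Primes) : Fact (p : ℕ).Prime := ⟨p.2⟩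

variable {L : Type} [Field L] [NumberField L] {r s e : ℕ}

/-- The class number of the field `K` is prime to its degree, and `-1` is a norm or no negative number is a
norm. -/
def Admissible (K : IntermediateField ℚ L) : Prop :=
  (classNumber K).Coprime (finrank ℚ K) ∧
    ((∃ x : K, Algebra.norm ℚ x = -1) ∨ ∀ x : K, 0 ≤ Algebra.norm ℚ x)

/-- All `k` in `ℤ^s` with `|k_j| ≤ B X ^ deg f_j`. -/
noncomputable def box (f : Fin s → ℤ[X]) (B X : ℕ) : Finset (Fin s → ℤ) :=
  Fintype.piFinset fun j => Icc (-((B * X ^ (f j).natDegree : ℕ) : ℤ)) ((B * X ^ (f j).natDegree : ℕ) : ℤ)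

/-- The point `(t, z)` with coordinates in the field `F` lies on
`V_k : N_{Kᵢ/ℚ}(zᵢ) = cᵢ ∏_{j : ψ(j) = φ(i)} (f_j(t) + k_j)`, all `f_j(t) + k_j ≠ 0`. The coordinates `zᵢ`
form an element of `F ⊗ Kᵢ`. -/
def OnV (K : Fin r → IntermediateField ℚ L) (f : Fin s → ℤ[X]) (ψ : Fin s → Fin e) (φ : Fin r → Fin e)
    (c : Fin r → ℤ) (k : Fin s → ℤ) {F : Type} [Field F] [Algebra ℚ F] (t : F)
    (z : (i : Fin r) → F ⊗[ℚ] (K i)) : Prop :=
  (∀ j, aeval t (f j) + (k j : F) ≠ 0) ∧
    ∀ i, Algebra.norm F (z i) = (c i : F) * ∏ j with ψ j = φ i, (aeval t (f j) + (k j : F))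

/-- The coordinates of an element of `F ⊗ K`, with respect to an integral basis of `K`. -/
noncomputable def coord (K : IntermediateField ℚ L) {F : Type} [Field F] [Algebra ℚ F] (z : F ⊗[ℚ] K)
    (j : Free.ChooseBasisIndex ℤ (𝓞 K)) : F :=
  (Algebra.TensorProduct.basis F (integralBasis K)).repr z j

/-- Given points: for all `p` in `T` the point `(t_p, z_p)` lies on `V_k`, its coordinates have absolute
value at most `p ^ N` and `|f_j(t_p) + k_j| ≥ p ^ (-N)` for all `j`; and `(tr, zr)` is a real point of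
`V_k` with `|tr| ≤ B X` and `|f_j(tr) + k_j| ≥ X ^ deg f_j / B` for all `j`. -/
def Given (K : Fin r → IntermediateField ℚ L) (f : Fin s → ℤ[X]) (ψ : Fin s → Fin e) (φ : Fin r → Fin e)
    (c : Fin r → ℤ) (T : Finset Nat.Primes) (N B X : ℕ) (k : Fin s → ℤ)
    (t : (p : Nat.Primes) → ℚ_[(p : ℕ)]) (z : (p : Nat.Primes) → (i : Fin r) → ℚ_[(p : ℕ)] ⊗[ℚ] (K i))
    (tr : ℝ) (zr : (i : Fin r) → ℝ ⊗[ℚ] (K i)) : Prop :=
  (∀ p ∈ T, OnV K f ψ φ c k (t p) (z p) ∧ ‖t p‖ ≤ ((p : ℕ) : ℝ) ^ N ∧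
    (∀ i j, ‖coord (K i) (z p i) j‖ ≤ ((p : ℕ) : ℝ) ^ N) ∧
    ∀ j, (((p : ℕ) : ℝ) ^ N)⁻¹ ≤ ‖aeval (t p) (f j) + (k j : ℚ_[(p : ℕ)])‖) ∧
  OnV K f ψ φ c k tr zr ∧ |tr| ≤ B * X ∧ ∀ j, (X : ℝ) ^ (f j).natDegree ≤ B * |aeval tr (f j) + (k j : ℝ)|

/-- There is a rational point `(q, y)` of `V_k` with `|q - tr| ≤ X / B`, such that the `f_j(q) + k_j` have
the signs of the `f_j(tr) + k_j`, `q` is within `p ^ (-N)` of `t_p` for all `p` in `T`, and the coordinates
of `yᵢ` are within `p ^ (-N)` of those of `z_{p,i}` for all `p` in `T` and all `i` for which `Kᵢ` is cyclic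
over `ℚ`. -/
def Approximated (K : Fin r → IntermediateField ℚ L) (f : Fin s → ℤ[X]) (ψ : Fin s → Fin e)
    (φ : Fin r → Fin e) (c : Fin r → ℤ) (T : Finset Nat.Primes) (N B X : ℕ) (k : Fin s → ℤ)
    (t : (p : Nat.Primes) → ℚ_[(p : ℕ)]) (z : (p : Nat.Primes) → (i : Fin r) → ℚ_[(p : ℕ)] ⊗[ℚ] (K i))
    (tr : ℝ) : Prop :=
  ∃ (q : ℚ) (y : (i : Fin r) → ℚ ⊗[ℚ] (K i)), OnV K f ψ φ c k q y ∧ B * |(q : ℝ) - tr| ≤ X ∧
    (∀ j, 0 < (aeval (q : ℝ) (f j) + (k j : ℝ)) * (aeval tr (f j) + (k j : ℝ))) ∧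
    ∀ p ∈ T, ‖(q : ℚ_[(p : ℕ)]) - t p‖ ≤ (((p : ℕ) : ℝ) ^ N)⁻¹ ∧
      ∀ i, IsGalois ℚ (K i) → IsCyclic (K i ≃ₐ[ℚ] K i) → ∀ j,
        ‖((coord (K i) (y i) j : ℚ) : ℚ_[(p : ℕ)]) - coord (K i) (z p i) j‖ ≤ (((p : ℕ) : ℝ) ^ N)⁻¹

/-- Weak approximation of level `N` at the primes of `T`, and of level `B` at the real place. -/
def WeakApproximation (K : Fin r → IntermediateField ℚ L) (f : Fin s → ℤ[X]) (ψ : Fin s → Fin e)
    (φ : Fin r → Fin e) (c : Fin r → ℤ) (T : Finset Nat.Primes) (N B X : ℕ) (k : Fin s → ℤ) : Prop :=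
  ∀ (t : (p : Nat.Primes) → ℚ_[(p : ℕ)]) (z : (p : Nat.Primes) → (i : Fin r) → ℚ_[(p : ℕ)] ⊗[ℚ] (K i))
    (tr : ℝ) (zr : (i : Fin r) → ℝ ⊗[ℚ] (K i)), Given K f ψ φ c T N B X k t z tr zr →
    Approximated K f ψ φ c T N B X k t z tr

lemma wa_of (K : Fin r → IntermediateField ℚ L) (hK : ∀ i, Admissible (K i)) (f : Fin s → ℤ[X])
    (ψ : Fin s → Fin e) (φ : Fin r → Fin e) (c : Fin r → ℤ) (hc : ∀ i, c i ≠ 0) (T : Finset Nat.Primes)
    (N B X E : ℕ) (hE : E = (2 * (∑ j, (f j).natDegree) + 3) * (2 * N + 2 * ∑ i, finrank ℚ (K i)) + 3)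
    (k : Fin s → ℤ)
    (h : ∀ (t : (p : Nat.Primes) → ℚ_[(p : ℕ)]) (tr : ℝ), Pool.Agent.R479.NF.LcX K f ψ φ c T E k t →
      Pool.Agent.R479.NF.RcX K f ψ φ c k tr → |tr| ≤ B * X →
      (∀ j, (X : ℝ) ^ (f j).natDegree ≤ B * |Pool.Agent.Y714.RC.PP f k j tr|) →
      Pool.Agent.R479.NF.GlX K f ψ φ c T E B X k t tr) :
    WeakApproximation K f ψ φ c T N B X k := by
  intro t z tr zr hg
  obtain ⟨hg1, hg2, hg3, hg4⟩ := hg
  have hNE : N ≤ E := by
    rw [hE]
    nlinarith [Nat.zero_le (∑ i, finrank ℚ (K i)), Nat.zero_le (∑ j, (f j).natDegree)]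
  have hone : ∀ p : Nat.Primes, (1 : ℝ) < ((p : ℕ) : ℝ) := fun p => by exact_mod_cast p.2.one_lt
  have hG := h t tr (by
    intro p hp
    have h1p := hone p
    have h0p : (0 : ℝ) < ((p : ℕ) : ℝ) := by linarith
    obtain ⟨h1, h2, -, h4⟩ := hg1 p hp
    refine ⟨h2.trans (pow_le_pow_right₀ h1p.le hNE), fun j => ?_, fun i => ⟨z p i, h1.2 i⟩⟩
    exact (inv_anti₀ (by positivity) (pow_le_pow_right₀ h1p.le hNE)).trans (h4 j)) (by
    intro i
    rcases (hK i).2 with h4 | h4
    · exact Or.inl h4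
    · right
      have h5 := Pool.Agent.R479.NF.real_nonneg h4 (zr i)
      rw [hg2.2 i] at h5
      exact lt_of_le_of_ne h5 (mul_ne_zero (by exact_mod_cast hc i)
        (prod_ne_zero_iff.2 fun j _ => hg2.1 j)).symm) hg3 hg4
  obtain ⟨q, y, h1, h2, h3, h4⟩ := Pool.Agent.R479.NF.sx_of K f ψ φ c hc T N B X E hE k t z tr (by
    intro p hp
    obtain ⟨h1, h2, h3, h4⟩ := hg1 p hp
    exact ⟨h2, h4, fun i => ⟨h1.2 i, fun j => h3 i j⟩⟩) B hG
  refine ⟨q, fun i => (1 : ℚ) ⊗ₜ[ℚ] y i, ⟨fun j h0 => ?_, fun i => ?_⟩, h2, h1, fun p hp =>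
    ⟨(h4 p hp).1, fun i hc1 hc2 j => ?_⟩⟩
  · have h5 := h1 j
    have e : Pool.Agent.Y714.RC.PP f k j (q : ℝ) = ((aeval q (f j) + (k j : ℚ) : ℚ) : ℝ) := by
      unfold Pool.Agent.Y714.RC.PP
      have e2 : ((aeval q (f j) : ℚ) : ℝ) = aeval (q : ℝ) (f j) := by
        have := aeval_algebraMap_apply ℝ q (f j)
        simp only [eq_ratCast] at this
        exact this.symm
      push_cast
      rw [e2]
    rw [e, h0, Rat.cast_zero, zero_mul] at h5
    exact lt_irrefl _ h5
  · rw [Pool.Agent.R479.NF.norm_one_tmul_rat, h3 i]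
    rfl
  · have h5 := (h4 p hp).2 i hc1 hc2.exists_generator j
    have e : ((coord (K i) ((1 : ℚ) ⊗ₜ[ℚ] y i) j : ℚ) : ℚ_[(p : ℕ)]) =
        Pool.Agent.R479.NF.cd (p : ℕ) ((1 : ℚ_[(p : ℕ)]) ⊗ₜ[ℚ] (y i) : Pool.Agent.R479.NF.Ap (K i) (p : ℕ)) j := by
      unfold coord Pool.Agent.R479.NF.cd
      rw [Basis.equivFun_apply, Algebra.TensorProduct.basis_repr_tmul, Algebra.TensorProduct.basis_repr_tmul]
      simp
    rw [e]
    exact h5

open Classical in
/-- For 100% of the `k` in the boxes `|k_j| ≤ B X ^ deg f_j`, `X → ∞`, the variety `V_k` satisfies weak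
approximation of level `N` at `T` and `B` at the real place. Here `L` is the `m`-th cyclotomic field, the
`Kᵢ` are subfields of it, `ψ` is surjective, and `T` contains the primes up to `∑ deg f_j` and those
dividing `m`, some leading coefficient or some `cᵢ`, or else `T` is any finite set of primes and `cᵢ` times
the product of the leading coefficients of the `f_j`, `ψ(j) = φ(i)`, is a norm from `Kᵢ` for all `i`. -/
theorem result (m : ℕ) [NeZero m] [IsCyclotomicExtension {m} ℚ L] (K : Fin r → IntermediateField ℚ L)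
    (hK : ∀ i, Admissible (K i)) (f : Fin s → ℤ[X]) (hf : ∀ j, 1 ≤ (f j).natDegree) (ψ : Fin s → Fin e)
    (hψ : Function.Surjective ψ) (φ : Fin r → Fin e) (c : Fin r → ℤ) (hc : ∀ i, c i ≠ 0)
    (T : Finset Nat.Primes)
    (hT : (∀ p : Nat.Primes, ((p : ℕ) ≤ ∑ j, (f j).natDegree ∨ (p : ℕ) ∣ m ∨
      (∃ j, ((p : ℕ) : ℤ) ∣ (f j).leadingCoeff) ∨ ∃ i, ((p : ℕ) : ℤ) ∣ c i) → p ∈ T) ∨
      ∀ i, ∃ x : K i, Algebra.norm ℚ x = (c i : ℚ) * ∏ j with ψ j = φ i, ((f j).leadingCoeff : ℚ))
    (N B : ℕ) (hB : 1 ≤ B) :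
    Tendsto (fun X : ℕ =>
      (#{k ∈ box f B X | ¬ WeakApproximation K f ψ φ c T N B X k} : ℝ) / #(box f B X)) atTop (𝓝 0) := by
  obtain ⟨β, hβ⟩ := hψ.hasRightInverse
  obtain ⟨E, hE⟩ : ∃ E, E = (2 * (∑ j, (f j).natDegree) + 3) * (2 * N + 2 * ∑ i, finrank ℚ (K i)) + 3 :=
    ⟨_, rfl⟩
  have hmain : ∀ ε : ℝ, 0 < ε → ∃ X0 : ℕ, ∀ X : ℕ, X0 ≤ X → ∃ Bad : Finset (Fin s → ℤ),
      (#Bad : ℝ) ≤ ε * ∏ j, (X : ℝ) ^ (f j).natDegree ∧
      ∀ k : Fin s → ℤ, (∀ j, |k j| ≤ ((B * X ^ (f j).natDegree : ℕ) : ℤ)) → k ∉ Bad →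
        ∀ (t : (p : Nat.Primes) → ℚ_[(p : ℕ)]) (tr : ℝ), Pool.Agent.R479.NF.LcX K f ψ φ c T E k t →
        Pool.Agent.R479.NF.RcX K f ψ φ c k tr → |tr| ≤ B * X →
        (∀ j, (X : ℝ) ^ (f j).natDegree ≤ B * |Pool.Agent.Y714.RC.PP f k j tr|) →
        Pool.Agent.R479.NF.GlX K f ψ φ c T E B X k t tr := by
    intro ε hε
    rcases hT with hT | hT
    · exact Pool.Agent.R479.NF.wxT m K (fun i => (hK i).1) (fun i => (hK i).2) f hf ψ φ β hβ c hc T hT E B hB ε hε
    · exact Pool.Agent.R479.NF.wxAny m K (fun i => (hK i).1) (fun i => (hK i).2) f hf ψ φ β hβ c hc hT T E B hB ε hε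
  rw [Metric.tendsto_atTop]
  intro ε hε
  obtain ⟨X0, h⟩ := hmain (ε / 2) (by linarith)
  refine ⟨max X0 1, fun X hX => ?_⟩
  obtain ⟨Bad, hB1, hB2⟩ := h X ((le_max_left _ _).trans hX)
  have hX1 : 1 ≤ X := (le_max_right _ _).trans hX
  have hbox : (∏ j, (X : ℝ) ^ (f j).natDegree) ≤ #(box f B X) := Pool.Agent.R479.NF.box_card f B X hB
  have hPr : (0 : ℝ) < ∏ j, (X : ℝ) ^ (f j).natDegree := prod_pos fun j _ => by
    have : (0 : ℝ) < X := by exact_mod_cast hX1
    positivity
  have hbox0 : (0 : ℝ) < #(box f B X) := lt_of_lt_of_le hPr hbox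
  have hsub : {k ∈ box f B X | ¬ WeakApproximation K f ψ φ c T N B X k} ⊆ Bad := by
    intro k hk
    rw [mem_filter] at hk
    obtain ⟨hk1, hk2⟩ := hk
    by_contra hkB
    apply hk2
    refine wa_of K hK f ψ φ c hc T N B X E hE k (hB2 k (fun j => ?_) hkB)
    unfold box at hk1
    rw [Fintype.mem_piFinset] at hk1
    exact abs_le.2 (mem_Icc.1 (hk1 j))
  have h2 : (#{k ∈ box f B X | ¬ WeakApproximation K f ψ φ c T N B X k} : ℝ) ≤ #Bad := by
    exact_mod_cast card_le_card hsub
  rw [dist_zero_right, Real.norm_of_nonneg (div_nonneg (Nat.cast_nonneg _) hbox0.le), div_lt_iff₀ hbox0]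
  calc (#{k ∈ box f B X | ¬ WeakApproximation K f ψ φ c T N B X k} : ℝ) ≤ ε / 2 * ∏ j, (X : ℝ) ^ (f j).natDegree := h2.trans hB1
    _ ≤ ε / 2 * #(box f B X) := mul_le_mul_of_nonneg_left hbox (by linarith)
    _ < ε * #(box f B X) := mul_lt_mul_of_pos_right (by linarith) hbox0

end Pool.Agent.Results.MP_83e36b_nt.ProductsOfShiftedPolynomials
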